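import Mathlib

/-!
# Block TD1: the parity of the character sum
-/

set_option autoImplicit false

namespace Pool.Agent.TD

/-- the number of roots of a quadratic polynomial modulo 2 -/
theorem td1_quad {F : Type} [Field F] [Fintype F] [DecidableEq F] (hF : ringChar F ≠ 2)
    (a b : F) : ((Finset.univ.filter (fun x : F => x ^ 2 + a * x + b = 0)).card : ZMod 2) =
      if a ^ 2 - 4 * b = 0 then 1 else 0 := by
  have h2 : (2 : F) ≠ 0 := Ring.two_ne_zero hF
  have h4 : (4 : F) ≠ 0 := by
    have : (4 : F) = 2 * 2 := by norm_num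
    rw [this]
    exact mul_ne_zero h2 h2
  set S := Finset.univ.filter (fun x : F => x ^ 2 + a * x + b = 0) with hS
  -- the sum of ones over `S` is the sum over the fixed points of `x ↦ -a-x`
  have h1 : (S.card : ZMod 2) = ∑ x ∈ S, (1 : ZMod 2) := by simp
  have hsplit : ∑ x ∈ S, (1 : ZMod 2) = ∑ x ∈ S.filter (fun x => 2 * x = -a), (1 : ZMod 2) +
      ∑ x ∈ S.filter (fun x => ¬ 2 * x = -a), (1 : ZMod 2) :=
    (Finset.sum_filter_add_sum_filter_not S _ _).symm
  have h0 : ∑ x ∈ S.filter (fun x => ¬ 2 * x = -a), (1 : ZMod 2) = 0 := by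
    refine Finset.sum_involution (fun x _ => -a - x) ?_ ?_ ?_ ?_
    · intro x _
      decide
    · intro x hx _ h
      rw [Finset.mem_filter] at hx
      apply hx.2
      linear_combination -h
    · intro x hx
      rw [hS, Finset.mem_filter, Finset.mem_filter] at hx ⊢
      refine ⟨⟨Finset.mem_univ _, ?_⟩, ?_⟩
      · linear_combination hx.1.2
      · intro h
        apply hx.2
        linear_combination -h
    · intro x _
      ring
  have hfix : S.filter (fun x => 2 * x = -a) =
      if a ^ 2 - 4 * b = 0 then {-a / 2} else ∅ := by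
    ext x
    rw [hS, Finset.mem_filter, Finset.mem_filter]
    split_ifs with h
    · rw [Finset.mem_singleton]
      constructor
      · rintro ⟨_, h5⟩
        rw [eq_div_iff h2]
        linear_combination h5
      · intro h5
        rw [eq_div_iff h2] at h5
        refine ⟨⟨Finset.mem_univ _, ?_⟩, by linear_combination h5⟩
        have h6 : 4 * (x ^ 2 + a * x + b) = 0 := by
          linear_combination (2 * x + a) * h5 - h
        exact (mul_eq_zero.1 h6).resolve_left h4
    · simp only [Finset.notMem_empty, iff_false]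
      rintro ⟨⟨_, h5⟩, h6⟩
      apply h
      linear_combination (-2 * x - a) * (-1) * h6 - 4 * h5
  rw [h1, hsplit, h0, add_zero, hfix]
  split_ifs <;> simp

/-- the number of `x` with `x (x^2 + a x + b) = 0` modulo 2 -/
theorem td1_cubic {F : Type} [Field F] [Fintype F] [DecidableEq F] (hF : ringChar F ≠ 2)
    (a b : F) : ((Finset.univ.filter (fun x : F => x * (x ^ 2 + a * x + b) = 0)).card : ZMod 2) =
      1 + (if b = 0 then 1 else 0) + if a ^ 2 - 4 * b = 0 then 1 else 0 := by
  have h1 := td1_quad hF a b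
  set S := Finset.univ.filter (fun x : F => x ^ 2 + a * x + b = 0) with hS
  have h2 : Finset.univ.filter (fun x : F => x * (x ^ 2 + a * x + b) = 0) = insert 0 S := by
    ext x
    rw [Finset.mem_insert, hS, Finset.mem_filter, Finset.mem_filter, mul_eq_zero]
    simp
  have h3 : (0 : F) ∈ S ↔ b = 0 := by
    rw [hS, Finset.mem_filter]
    simp
  rw [h2]
  by_cases hb : b = 0
  · rw [Finset.insert_eq_of_mem (h3.2 hb), h1, if_pos hb]
    have : (1 : ZMod 2) + 1 = 0 := by decide
    rw [this, zero_add]
  · rw [Finset.card_insert_of_notMem (fun h => hb (h3.1 h)), Nat.cast_add, h1, if_neg hb]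
    push_cast
    ring

/-- the inner sum modulo 2 -/
theorem td1_inner {F : Type} [Field F] [Fintype F] [DecidableEq F] (hF : ringChar F ≠ 2)
    (a b : F) : (((∑ x : F, quadraticChar F (x * (x ^ 2 + a * x + b)) : ℤ)) : ZMod 2) =
      (if b = 0 then 1 else 0) + if a ^ 2 - 4 * b = 0 then 1 else 0 := by
  have h1 : ∀ y : F, ((quadraticChar F y : ℤ) : ZMod 2) = 1 - if y = 0 then 1 else 0 := by
    intro y
    split_ifs with h
    · rw [h]
      simp
    · rcases quadraticChar_dichotomy h with h | h <;> rw [h] <;> decide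
  push_cast
  simp only [h1]
  rw [Finset.sum_sub_distrib, Finset.sum_boole, td1_cubic hF a b]
  have h2 : ∑ _x : F, (1 : ZMod 2) = 1 := by
    rw [Finset.sum_const, Finset.card_univ, nsmul_eq_mul, mul_one]
    have h3 : Fintype.card F % 2 = 1 := FiniteField.odd_card_of_char_ne_two hF
    have h4 : (Fintype.card F : ZMod 2) = ((Fintype.card F % 2 : ℕ) : ZMod 2) := by
      rw [ZMod.natCast_mod]
    rw [h4, h3, Nat.cast_one]
  rw [h2]
  have h3 : ∀ u v : ZMod 2, (1 : ZMod 2) - (1 + u + v) = u + v := by decide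
  exact h3 _ _

/-- TD1: the parity of the character sum. -/
theorem td_parity {F : Type} [Field F] [Fintype F] [DecidableEq F] (hF : ringChar F ≠ 2)
    (a b : F → F) (a' b' : F) (hb : b' ≠ 0) (hd : a' ^ 2 - 4 * b' ≠ 0) :
    (((∑ t : F, ∑ x : F, quadraticChar F (x * (x ^ 2 + a t * x + b t))) +
      ∑ x : F, quadraticChar F (x * (x ^ 2 + a' * x + b')) : ℤ) : ZMod 2) =
      (Nat.card {t // b t = 0} : ZMod 2) + (Nat.card {t // a t ^ 2 - 4 * b t = 0} : ZMod 2) := by
  rw [Int.cast_add, td1_inner hF a' b', if_neg hb, if_neg hd, Int.cast_sum]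
  simp only [td1_inner hF]
  rw [Finset.sum_add_distrib, Finset.sum_boole, Finset.sum_boole, Nat.card_eq_fintype_card,
    Nat.card_eq_fintype_card, Fintype.card_subtype, Fintype.card_subtype]
  simp

end Pool.Agent.TD
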