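import Pool.Agent.Lib_helper11.TD.Lin

/-!
# Block TD4
-/

set_option autoImplicit false

namespace Pool.Agent.TD

section Lin

variable {k V : Type*} [Field k] [AddCommGroup V] [Module k V]

/-- TD4: an orthogonal involution `g` with `g - 1` of rank `1` is a reflection. -/
theorem td_refl [FiniteDimensional k V] (h2 : (2 : k) ≠ 0) (b : LinearMap.BilinForm k V)
    (hs : ∀ x y, b x y = b y x) (hn : ∀ x, (∀ y, b x y = 0) → x = 0) (g : Module.End k V)
    (hg : g * g = 1) (hr : Module.finrank k (LinearMap.range (g - 1)) = 1)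
    (hb : ∀ x y, b (g x) (g y) = b x y) : ∃ v, b v v ≠ 0 ∧ g = refl b v := by
  obtain ⟨⟨v, hvU⟩, hv0, hv⟩ := finrank_eq_one_iff'.1 hr
  have hv0' : v ≠ 0 := fun h => hv0 (Subtype.ext h)
  have hgg : ∀ x, g (g x) = x := fun x => congrArg (fun f : Module.End k V => f x) hg
  -- `g v = -v`
  obtain ⟨w, hw⟩ := hvU
  have hw' : g w - w = v := hw
  have hgv : g v = -v := by
    rw [← hw', map_sub, hgg]
    abel
  -- `g x = x + lam x • v`
  have hlam : ∀ x, ∃ l : k, g x = x + l • v := by
    intro x
    obtain ⟨c, hc⟩ := hv ⟨(g - 1) x, x, rfl⟩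
    refine ⟨c, ?_⟩
    have h1 : c • v = g x - x := congrArg Subtype.val hc
    rw [h1]
    abel
  choose l hl using hlam
  have hkey : ∀ x, l x * b v v = -2 * b v x := by
    intro x
    have h1 := hb v x
    rw [hgv, hl x] at h1
    simp only [map_neg, LinearMap.neg_apply, map_add, map_smul, smul_eq_mul] at h1
    linear_combination -h1
  have hvv : b v v ≠ 0 := by
    intro h
    apply hv0'
    apply hn
    intro x
    have h1 := hkey x
    rw [h, mul_zero] at h1
    have h3 : (-2 : k) ≠ 0 := neg_ne_zero.2 h2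
    exact (mul_eq_zero.1 h1.symm).resolve_left h3
  refine ⟨v, hvv, ?_⟩
  ext x
  have h1 := hkey x
  have h3 : l x = -(2 / b v v * b v x) := by
    field_simp
    linear_combination h1
  rw [hl x, h3]
  change x + -(2 / b v v * b v x) • v = x - (2 / b v v) • ((b v x) • v)
  rw [smul_smul, neg_smul, sub_eq_add_neg]

end Lin

end Pool.Agent.TD
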